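import Pool.Agent.MBX.Stmts

set_option autoImplicit false

open MeasureTheory Complex ProbabilityTheory

noncomputable section

namespace Pool.Agent.MBX.H98

open Pool.Agent.Helper49_Pauli
open Pool.Agent.Loc (γn PB)

variable {ι : Type} [Fintype ι] [DecidableEq ι]

theorem pb_bdd {F : (ι → ℝ) → ℝ} (hc : Continuous F) (C : ℝ) (hC : ∀ y, |F y| ≤ C) : PB F := by
  refine ⟨hc, |C|, 0, abs_nonneg _, fun y => ?_⟩
  simpa using (hC y).trans (le_abs_self C)

theorem nn_nonneg (y : ι → ℝ) : 0 ≤ nn y := Finset.sum_nonneg fun _ _ => sq_nonneg _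

theorem nn_cont : Continuous (nn : (ι → ℝ) → ℝ) := by
  unfold nn
  fun_prop

theorem pbA {eta : ℝ} (h : 0 < eta) : PB (fun y : ι → ℝ => (nn y + eta)⁻¹) := by
  refine pb_bdd ?_ eta⁻¹ fun y => ?_
  · refine (nn_cont.add continuous_const).inv₀ fun y => ?_
    have h0 := nn_nonneg y
    exact (by linarith : (0 : ℝ) < nn y + eta).ne'
  · have h0 := nn_nonneg y
    have h1 : (0 : ℝ) < nn y + eta := by linarith
    rw [abs_of_nonneg (inv_pos.2 h1).le]
    exact inv_anti₀ h (by linarith)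

theorem der_g {eta : ℝ} (h : 0 < eta) (i : ι) (y : ι → ℝ) :
    HasDerivAt (fun t : ℝ => Function.update y i t i * (nn (Function.update y i t) + eta)⁻¹)
      ((nn y + eta)⁻¹ - 2 * y i ^ 2 * ((nn y + eta)⁻¹) ^ 2) (y i) := by
  set c : ℝ := ∑ j ∈ Finset.univ.erase i, y j ^ 2 with hc
  have hc0 : 0 ≤ c := Finset.sum_nonneg fun j _ => sq_nonneg _
  have h1 : ∀ t : ℝ, nn (Function.update y i t) = t ^ 2 + c := by
    intro t
    unfold nn
    rw [← Finset.add_sum_erase _ _ (Finset.mem_univ i), Function.update_self, hc]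
    refine congrArg _ (Finset.sum_congr rfl fun j hj => ?_)
    rw [Function.update_of_ne (Finset.ne_of_mem_erase hj)]
  have h2 : nn y = y i ^ 2 + c := by
    rw [← h1 (y i), Function.update_eq_self]
  have h3 : (fun t : ℝ => Function.update y i t i * (nn (Function.update y i t) + eta)⁻¹) =
      fun t : ℝ => t * (t ^ 2 + c + eta)⁻¹ := by
    funext t
    rw [h1 t, Function.update_self]
  rw [h3, h2]
  have h4 : HasDerivAt (fun t : ℝ => t ^ 2 + c + eta) (2 * y i) (y i) := by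
    have := (((hasDerivAt_pow 2 (y i)).add_const c).add_const eta)
    simpa using this
  have h5 : y i ^ 2 + c + eta ≠ 0 := by
    have h0 := sq_nonneg (y i)
    exact (by linarith : (0 : ℝ) < y i ^ 2 + c + eta).ne'
  have h6 := (hasDerivAt_id' (y i)).fun_mul (h4.fun_inv h5)
  refine h6.congr_deriv ?_
  field_simp
  ring

theorem nsq_re (u : S2) : (∑ s, (starRingEnd ℂ) (u s) * u s).re = nsq u := by
  unfold nsq
  rw [Complex.re_sum]
  refine Finset.sum_congr rfl fun s _ => ?_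
  rw [← Complex.normSq_eq_norm_sq, Complex.normSq_apply, Complex.mul_re, Complex.conj_re,
    Complex.conj_im]
  ring

theorem qmem (hscl : SclStmt) {psi : (ι → ℝ) → X3 → S2} (h : WW psi) :
    (fun y x => ∑ s, (starRingEnd ℂ) (psi y x s) * psi y x s) ∈ SS ι := by
  obtain ⟨h1, h2, -, -⟩ := hscl ι
  have e : (fun (y : ι → ℝ) (x : X3) => ∑ s, (starRingEnd ℂ) (psi y x s) * psi y x s) =
      (fun y x => (starRingEnd ℂ) (psi y x 0) * psi y x 0) +
        fun y x => (starRingEnd ℂ) (psi y x 1) * psi y x 1 := by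
    funext y x
    rw [Fin.sum_univ_two]
    rfl
  rw [e]
  exact Submodule.add_mem _ (h1 _ (h2 _ (h 0)) _ (h 0)) (h1 _ (h2 _ (h 1)) _ (h 1))

theorem nfN (hscl : SclStmt) (hsnf : SnfStmt) {psi : (ι → ℝ) → X3 → S2} (h : WW psi) :
    NF (fun y x => nsq (psi y x)) := by
  have := (hsnf ι _ (qmem hscl h)).1
  simpa only [nsq_re] using this

theorem dq_re (hsdy : SdyStmt) {psi : (ι → ℝ) → X3 → S2} (h : WW psi) (i : ι) (y : ι → ℝ)
    (x : X3) :
    (dY i (fun y x => ∑ s, (starRingEnd ℂ) (psi y x s) * psi y x s) y x).re =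
      2 * pair (psi y x) (dY2 i psi y x) := by
  have hd : ∀ s, HasDerivAt (fun t : ℝ => psi (Function.update y i t) x s)
      (dY2 i psi y x s) (y i) := fun s => (hsdy ι _ (h s) i).2 y x
  have hp : ∀ s, HasDerivAt (fun t : ℝ => (starRingEnd ℂ) (psi (Function.update y i t) x s) *
      psi (Function.update y i t) x s)
      ((starRingEnd ℂ) (dY2 i psi y x s) * psi y x s +
        (starRingEnd ℂ) (psi y x s) * dY2 i psi y x s) (y i) := by
    intro s
    have h1 := (hd s).star.fun_mul (hd s)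
    simp only [Function.update_eq_self] at h1
    exact h1
  have hs := HasDerivAt.fun_sum (u := Finset.univ) fun s _ => hp s
  have e : dY i (fun y x => ∑ s, (starRingEnd ℂ) (psi y x s) * psi y x s) y x =
      ∑ s, ((starRingEnd ℂ) (dY2 i psi y x s) * psi y x s +
        (starRingEnd ℂ) (psi y x s) * dY2 i psi y x s) := hs.deriv
  rw [e, pair, Complex.re_sum, Complex.re_sum, Finset.mul_sum]
  refine Finset.sum_congr rfl fun s _ => ?_
  simp only [Complex.add_re, Complex.mul_re, Complex.conj_re, Complex.conj_im]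
  ring

theorem pair_ge (g : ℝ) (u v : S2) : -(g ^ 2 * nsq u + nsq v) ≤ g * (2 * pair u v) := by
  have hu : nsq u = (u 0).re ^ 2 + (u 0).im ^ 2 + ((u 1).re ^ 2 + (u 1).im ^ 2) := by
    unfold nsq
    rw [Fin.sum_univ_two, ← Complex.normSq_eq_norm_sq, ← Complex.normSq_eq_norm_sq,
      Complex.normSq_apply, Complex.normSq_apply]
    ring
  have hv : nsq v = (v 0).re ^ 2 + (v 0).im ^ 2 + ((v 1).re ^ 2 + (v 1).im ^ 2) := by
    unfold nsq
    rw [Fin.sum_univ_two, ← Complex.normSq_eq_norm_sq, ← Complex.normSq_eq_norm_sq,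
      Complex.normSq_apply, Complex.normSq_apply]
    ring
  have hp : pair u v = (u 0).re * (v 0).re + (u 0).im * (v 0).im +
      ((u 1).re * (v 1).re + (u 1).im * (v 1).im) := by
    unfold pair
    rw [Fin.sum_univ_two]
    simp only [Complex.add_re, Complex.mul_re, Complex.conj_re, Complex.conj_im]
    ring
  rw [hu, hv, hp]
  nlinarith [sq_nonneg (g * (u 0).re + (v 0).re), sq_nonneg (g * (u 0).im + (v 0).im),
    sq_nonneg (g * (u 1).re + (v 1).re), sq_nonneg (g * (u 1).im + (v 1).im)]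

theorem ptw {eta : ℝ} (h : 0 < eta) (hM : 4 ≤ Fintype.card ι) (y : ι → ℝ) (u : S2) (v : ι → S2) :
    (nn y + eta)⁻¹ * nsq u - nsq u - ∑ i, nsq (v i) ≤
      ∑ i, (y i * (nn y + eta)⁻¹ * (2 * pair u (v i)) +
        (((nn y + eta)⁻¹ - 2 * y i ^ 2 * ((nn y + eta)⁻¹) ^ 2) - y i * (y i * (nn y + eta)⁻¹)) *
          nsq u) := by
  set A : ℝ := (nn y + eta)⁻¹ with hA
  have hn := nn_nonneg y
  have hp : (0 : ℝ) < nn y + eta := by linarith
  have hA0 : 0 < A := inv_pos.2 hp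
  have hnA : nn y * A ≤ 1 := by
    rw [hA, ← div_eq_mul_inv]
    exact (div_le_one hp).2 (by linarith)
  have hN : 0 ≤ nsq u := Finset.sum_nonneg fun s _ => by positivity
  have h1 : ∀ i, -((y i * A) ^ 2 * nsq u + nsq (v i)) +
      ((A - 2 * y i ^ 2 * A ^ 2) - y i * (y i * A)) * nsq u ≤
      y i * A * (2 * pair u (v i)) +
        ((A - 2 * y i ^ 2 * A ^ 2) - y i * (y i * A)) * nsq u := fun i => by
    have := pair_ge (y i * A) u (v i)
    linarith
  have h2 : ∑ i, (-((y i * A) ^ 2 * nsq u + nsq (v i)) +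
      ((A - 2 * y i ^ 2 * A ^ 2) - y i * (y i * A)) * nsq u) =
      (Fintype.card ι * A - 3 * (nn y * A) * A - nn y * A) * nsq u - ∑ i, nsq (v i) := by
    have e : ∀ i, -((y i * A) ^ 2 * nsq u + nsq (v i)) +
        ((A - 2 * y i ^ 2 * A ^ 2) - y i * (y i * A)) * nsq u =
        A * nsq u - y i ^ 2 * ((3 * A ^ 2 + A) * nsq u) - nsq (v i) := fun i => by ring
    have e2 : ∑ i, y i ^ 2 * ((3 * A ^ 2 + A) * nsq u) = nn y * ((3 * A ^ 2 + A) * nsq u) := by
      unfold nn
      rw [Finset.sum_mul]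
    rw [Finset.sum_congr rfl fun i _ => e i, Finset.sum_sub_distrib, Finset.sum_sub_distrib,
      e2, Finset.sum_const, Finset.card_univ, nsmul_eq_mul]
    ring
  refine le_trans ?_ (Finset.sum_le_sum fun i _ => h1 i)
  rw [h2]
  have hM' : (4 : ℝ) ≤ Fintype.card ι := by exact_mod_cast hM
  have h3 : A - 1 ≤ Fintype.card ι * A - 3 * (nn y * A) * A - nn y * A := by nlinarith
  nlinarith [mul_le_mul_of_nonneg_right h3 hN]

theorem har (hscl : SclStmt) (hsdy : SdyStmt) (hsnf : SnfStmt) (hnfc : NfcStmt) (hnfi : NfiStmt)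
    (hste : SteStmt) : HarStmt := by
  intro ι _ _ hM psi hpsi eta heta
  have hq := qmem hscl hpsi
  set q : (ι → ℝ) → X3 → ℂ := fun y x => ∑ s, (starRingEnd ℂ) (psi y x s) * psi y x s with hqd
  have hA := pbA (ι := ι) heta
  set g : ι → (ι → ℝ) → ℝ := fun i y => y i * (nn y + eta)⁻¹ with hg
  set g' : ι → (ι → ℝ) → ℝ := fun i y =>
    (nn y + eta)⁻¹ - 2 * y i ^ 2 * ((nn y + eta)⁻¹) ^ 2 with hg'
  have pg : ∀ i, PB (g i) := fun i => (PB.coord i).mul hA
  have pg' : ∀ i, PB (g' i) := fun i =>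
    hA.sub ((((PB.coord i).pow 2).const_mul 2).mul (hA.pow 2))
  have N0 : NF (fun y x => nsq (psi y x)) := nfN hscl hsnf hpsi
  have NA : NF (fun y x => (nn y + eta)⁻¹ * nsq (psi y x)) := (hnfc ι _ N0).2.1 _ hA
  have wd : ∀ i, WW (dY2 i psi) := fun i s => (hsdy ι _ (hpsi s) i).1
  have ND : ∀ i, NF (fun y x => nsq (dY2 i psi y x)) := fun i => nfN hscl hsnf (wd i)
  set T : ι → (ι → ℝ) → X3 → ℝ := fun i y x =>
    g i y * (dY i q y x).re + (g' i y - y i * g i y) * (q y x).re with hT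
  have NT : ∀ i, NF (T i) := by
    intro i
    have a1 := (hnfc ι _ (hsnf ι _ (hsdy ι q hq i).1).1).2.1 _ (pg i)
    have a2 := (hnfc ι _ (hsnf ι q hq).1).2.1 _ ((pg' i).sub ((PB.coord i).mul (pg i)))
    exact ((hnfc ι _ a1).1 _ a2).1
  have T0 : ∀ i, II (T i) = 0 := fun i =>
    hste ι q hq i (g i) (g' i) (pg i) (pg' i) fun y => der_g heta i y
  have iN := hnfi ι _ N0
  have iA := hnfi ι _ NA
  have iD : ∀ i, Integrable (fun z : (ι → ℝ) × X3 => nsq (dY2 i psi z.1 z.2))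
      ((γn ι).prod volume) := fun i => hnfi ι _ (ND i)
  have iG : Integrable (fun z : (ι → ℝ) × X3 => ∑ i, nsq (dY2 i psi z.1 z.2))
      ((γn ι).prod volume) := integrable_finsetSum _ fun i _ => iD i
  have iT : Integrable (fun z : (ι → ℝ) × X3 => ∑ i, T i z.1 z.2) ((γn ι).prod volume) :=
    integrable_finsetSum _ fun i _ => hnfi ι _ (NT i)
  have hs : ∫ z : (ι → ℝ) × X3, ∑ i, T i z.1 z.2 ∂((γn ι).prod volume) = 0 := by
    rw [integral_finsetSum _ fun i _ => hnfi ι _ (NT i)]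
    exact Finset.sum_eq_zero fun i _ => T0 i
  have hle : ∫ z : (ι → ℝ) × X3, ((nn z.1 + eta)⁻¹ * nsq (psi z.1 z.2) - nsq (psi z.1 z.2) -
      ∑ i, nsq (dY2 i psi z.1 z.2)) ∂((γn ι).prod volume) ≤
      ∫ z : (ι → ℝ) × X3, ∑ i, T i z.1 z.2 ∂((γn ι).prod volume) := by
    refine integral_mono ((iA.sub iN).sub iG) iT fun z => ?_
    have := ptw heta hM z.1 (psi z.1 z.2) fun i => dY2 i psi z.1 z.2
    refine this.trans (le_of_eq (Finset.sum_congr rfl fun i _ => ?_))
    simp only [hT, hg, hg']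
    rw [dq_re hsdy hpsi i z.1 z.2]
    simp only [hqd, nsq_re]
  have iAN : Integrable (fun z : (ι → ℝ) × X3 => (nn z.1 + eta)⁻¹ * nsq (psi z.1 z.2) -
      nsq (psi z.1 z.2)) ((γn ι).prod volume) := iA.sub iN
  rw [hs, integral_sub iAN iG, integral_sub iA iN] at hle
  unfold II
  linarith

end Pool.Agent.MBX.H98
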